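import Mathlib

set_option autoImplicit false

/-!
# Binomial edge ideals of crown graphs: parametrisations of the primes `P_T` and monomials
-/

namespace Pool.Agent.Q318.VN

open MvPolynomial

universe u

/-- The polynomial `x_v y_w - x_w y_v`; `X (v, false)` is `x_v` and `X (v, true)` is `y_v`. -/
noncomputable def minor (K : Type u) [Field K] {V : Type} (v w : V) :
    MvPolynomial (V × Bool) K :=
  X (v, false) * X (w, true) - X (w, false) * X (v, true)

/-- The binomial edge ideal `J_G`. -/
noncomputable def edgeIdeal (K : Type u) [Field K] {V : Type} (G : SimpleGraph V) :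
    Ideal (MvPolynomial (V × Bool) K) :=
  Ideal.span {p | ∃ v w, G.Adj v w ∧ p = minor K v w}

/-- The ideal `P_T(G)`: generated by the variables of the vertices in `T` and by the polynomials
`x_v y_w - x_w y_v`, `v` and `w` in the same connected component of `G - T`. -/
noncomputable def cutIdeal (K : Type u) [Field K] {V : Type} (G : SimpleGraph V) (T : Set V) :
    Ideal (MvPolynomial (V × Bool) K) :=
  Ideal.span ({p | ∃ v ∈ T, ∃ b, p = X (v, b)} ∪
    {p | ∃ v w : (Tᶜ : Set V), (G.induce Tᶜ).Reachable v w ∧ p = minor K (v : V) (w : V)})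

/-- The vertices of the crown graph: `(false, i)` is the vertex `2i - 1` and `(true, j)` is the
vertex `2j`. -/
abbrev Vtx (n : ℕ) : Type := Bool × Fin n

/-- The crown graph `C_{n,n}`. -/
def crown (n : ℕ) : SimpleGraph (Vtx n) where
  Adj u v := u.1 ≠ v.1 ∧ u.2 ≠ v.2
  symm := ⟨fun _ _ h => ⟨h.1.symm, h.2.symm⟩⟩
  loopless := ⟨fun _ h => h.1 rfl⟩

variable {K : Type u} [Field K] {n : ℕ}

/-- Exponents of monomials in the variables. -/
abbrev Mon (n : ℕ) : Type := (Vtx n × Bool) →₀ ℕ

/-- The exponent of the image of a variable. -/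
noncomputable def ex (c : Vtx n → Option (Vtx n)) (p : Vtx n × Bool) :
    (Vtx n ⊕ Option (Vtx n)) →₀ ℕ :=
  Finsupp.single (Sum.inl p.1) 1 + if p.2 = false then Finsupp.single (Sum.inr (c p.1)) 1 else 0

open Classical in
/-- The image of a variable. -/
noncomputable def img (K : Type u) [Field K] (D : Set (Vtx n)) (c : Vtx n → Option (Vtx n))
    (p : Vtx n × Bool) : MvPolynomial (Vtx n ⊕ Option (Vtx n)) K :=
  if p.1 ∈ D then 0 else monomial (ex c p) 1

/-- The parametrisation: `x_v ↦ s_v p_(c v)`, `y_v ↦ s_v` for `v` outside `D`, and `0` for `v` in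
`D`. -/
noncomputable def phi (K : Type u) [Field K] (D : Set (Vtx n)) (c : Vtx n → Option (Vtx n)) :
    MvPolynomial (Vtx n × Bool) K →ₐ[K] MvPolynomial (Vtx n ⊕ Option (Vtx n)) K :=
  aeval (img K D c)

/-- The exponent of the image of a monomial. -/
noncomputable def E (c : Vtx n → Option (Vtx n)) (m : Mon n) : (Vtx n ⊕ Option (Vtx n)) →₀ ℕ :=
  m.sum fun p k => k • ex c p

/-- The monomial contains no variable of a vertex in `D`. -/
def Alive (D : Set (Vtx n)) (m : Mon n) : Prop := ∀ p, m p ≠ 0 → p.1 ∉ D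

lemma phi_alive {D : Set (Vtx n)} (c : Vtx n → Option (Vtx n)) {m : Mon n} (h : Alive D m)
    (r : K) : phi K D c (monomial m r) = monomial (E c m) r := by
  rw [phi, aeval_monomial, E, monomial_finsupp_sum_index]
  congr 1
  refine Finsupp.prod_congr fun p hp => ?_
  rw [img, if_neg (h p (Finsupp.mem_support_iff.1 hp)), monomial_pow, one_pow]

lemma phi_dead {D : Set (Vtx n)} (c : Vtx n → Option (Vtx n)) {m : Mon n} (h : ¬ Alive D m)
    (r : K) : phi K D c (monomial m r) = 0 := by
  simp only [Alive, not_forall, not_not] at h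
  obtain ⟨p, hp, hD⟩ := h
  rw [phi, aeval_monomial]
  have : m.prod (fun i k => img K D c i ^ k) = 0 := by
    rw [Finsupp.prod]
    refine Finset.prod_eq_zero (Finsupp.mem_support_iff.2 hp) ?_
    rw [img, if_pos hD, zero_pow hp]
  rw [this, mul_zero]

lemma E_inl (c : Vtx n → Option (Vtx n)) (m : Mon n) (v : Vtx n) :
    E c m (Sum.inl v) = m (v, false) + m (v, true) := by
  classical
  rw [E, Finsupp.sum_fintype _ _ (by simp), Finsupp.finsetSum_apply, Fintype.sum_prod_type]
  rw [Finset.sum_eq_single v]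
  · simp [ex, add_comm]
  · intro u _ hu
    simp [ex, hu]
  · simp

lemma E_inr (c : Vtx n → Option (Vtx n)) (m : Mon n) (k : Option (Vtx n)) :
    E c m (Sum.inr k) = ∑ u, if c u = k then m (u, false) else 0 := by
  classical
  rw [E, Finsupp.sum_fintype _ _ (by simp), Finsupp.finsetSum_apply, Fintype.sum_prod_type]
  refine Finset.sum_congr rfl fun u _ => ?_
  simp [ex, Finsupp.single_apply]

lemma E_eq {c : Vtx n → Option (Vtx n)} {m m' : Mon n} (h : E c m' = E c m)
    (W : Finset (Vtx n)) (hW : ∀ v ∉ W, m (v, false) = 0 ∧ m (v, true) = 0) :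
    (∀ v, m' (v, false) + m' (v, true) = m (v, false) + m (v, true)) ∧
    ∀ k, (∑ u ∈ W, if c u = k then m' (u, false) else 0) =
      ∑ u ∈ W, if c u = k then m (u, false) else 0 := by
  classical
  have h1 : ∀ v, m' (v, false) + m' (v, true) = m (v, false) + m (v, true) := by
    intro v
    rw [← E_inl c, ← E_inl c, h]
  refine ⟨h1, fun k => ?_⟩
  have h2 := congrArg (fun e => e (Sum.inr k)) h
  simp only [E_inr] at h2
  rw [Finset.sum_subset (Finset.subset_univ W), Finset.sum_subset (Finset.subset_univ W)]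
  · exact h2
  · intro u _ hu
    simp [(hW u hu).1]
  · intro u _ hu
    have := h1 u
    rw [(hW u hu).1, (hW u hu).2] at this
    have h3 : m' (u, false) = 0 := by omega
    simp [h3]

lemma mon_ext {m m' : Mon n} (W : Finset (Vtx n))
    (hW : ∀ v ∉ W, m (v, false) = 0 ∧ m (v, true) = 0)
    (h1 : ∀ v, m' (v, false) + m' (v, true) = m (v, false) + m (v, true))
    (h2 : ∀ v ∈ W, m' (v, false) = m (v, false)) : m' = m := by
  refine Finsupp.ext fun p => ?_
  obtain ⟨v, b⟩ := p
  have h3 := h1 v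
  by_cases hv : v ∈ W
  · have h4 := h2 v hv
    cases b
    · exact h4
    · omega
  · obtain ⟨h5, h6⟩ := hW v hv
    cases b <;> omega

/-- The standard monomials. -/
def Std (m : Mon n) : Prop :=
  (∀ (s : Bool) (i j : Fin n), i ≠ j → m ((s, i), s) = 0 ∨ m ((!s, j), !s) = 0) ∧
  ∀ (s : Bool) (i j k : Fin n), i < j → k ≠ i → k ≠ j →
    m ((s, i), s) = 0 ∨ m ((s, j), !s) = 0 ∨ m ((!s, k), s) = 0

/-- A polynomial in the kernel of `phi` supported on standard monomials has no monomial that is
separated from the other ones. -/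
lemma coeff_eq_zero {N : MvPolynomial (Vtx n × Bool) K} {S : Set (Mon n)}
    (hN : ∀ m ∈ N.support, m ∈ S) {D : Set (Vtx n)} {c : Vtx n → Option (Vtx n)}
    (h : phi K D c N = 0) {m : Mon n} (hm : Alive D m)
    (hsep : ∀ m' ∈ S, Alive D m' → E c m' = E c m → m' = m) : coeff m N = 0 := by
  classical
  by_contra hne
  have h1 : coeff (E c m) (phi K D c N) = coeff m N := by
    conv_lhs => rw [N.as_sum, map_sum, coeff_sum]
    rw [Finset.sum_eq_single m]
    · rw [phi_alive c hm, coeff_monomial, if_pos rfl]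
    · intro m' hm' hmm
      by_cases hA : Alive D m'
      · rw [phi_alive c hA, coeff_monomial, if_neg]
        intro hE
        exact hmm (hsep m' (hN m' hm') hA hE)
      · rw [phi_dead c hA, coeff_zero]
    · intro hm'
      exact absurd (mem_support_iff.2 hne) hm'
  rw [h, coeff_zero] at h1
  exact hne h1.symm

/-- The colouring is constant along the edges outside `D`. -/
def Compat (D : Set (Vtx n)) (c : Vtx n → Option (Vtx n)) : Prop :=
  ∀ v w, (crown n).Adj v w → v ∉ D → w ∉ D → c v = c w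

lemma phi_minor (D : Set (Vtx n)) (c : Vtx n → Option (Vtx n)) {v w : Vtx n} (hv : v ∉ D)
    (hw : w ∉ D) : phi K D c (minor K v w) =
      monomial (Finsupp.single (Sum.inl v) 1 + Finsupp.single (Sum.inl w) 1 +
        Finsupp.single (Sum.inr (c v)) 1) 1 -
      monomial (Finsupp.single (Sum.inl v) 1 + Finsupp.single (Sum.inl w) 1 +
        Finsupp.single (Sum.inr (c w)) 1) 1 := by
  have e1 : ex c (v, false) + ex c (w, true) =
      Finsupp.single (Sum.inl v) 1 + Finsupp.single (Sum.inl w) 1 +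
        Finsupp.single (Sum.inr (c v)) 1 := by
    simp only [ex, if_true, Bool.true_eq_false, if_false, add_zero]
    abel
  have e2 : ex c (w, false) + ex c (v, true) =
      Finsupp.single (Sum.inl v) 1 + Finsupp.single (Sum.inl w) 1 +
        Finsupp.single (Sum.inr (c w)) 1 := by
    simp only [ex, if_true, Bool.true_eq_false, if_false, add_zero]
    abel
  rw [← e1, ← e2]
  simp only [minor, map_sub, map_mul, phi, aeval_X, img, hv, hw, if_false, monomial_mul, mul_one]

lemma phi_minor_zero (D : Set (Vtx n)) (c : Vtx n → Option (Vtx n)) {v w : Vtx n}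
    (h : v ∈ D ∨ w ∈ D ∨ c v = c w) : phi K D c (minor K v w) = 0 := by
  by_cases hv : v ∈ D
  · simp [minor, phi, img, hv]
  · by_cases hw : w ∈ D
    · simp [minor, phi, img, hw]
    · rw [phi_minor D c hv hw]
      rcases h with h | h | h
      · exact absurd h hv
      · exact absurd h hw
      · rw [h, sub_self]

lemma edgeIdeal_le_ker {D : Set (Vtx n)} {c : Vtx n → Option (Vtx n)} (h : Compat D c)
    {p : MvPolynomial (Vtx n × Bool) K} (hp : p ∈ edgeIdeal K (crown n)) : phi K D c p = 0 := by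
  have h1 : edgeIdeal K (crown n) ≤ RingHom.ker (phi K D c) := by
    rw [edgeIdeal, Ideal.span_le]
    rintro q ⟨v, w, hvw, rfl⟩
    rw [SetLike.mem_coe, RingHom.mem_ker]
    refine phi_minor_zero D c ?_
    by_cases hv : v ∈ D
    · exact Or.inl hv
    · by_cases hw : w ∈ D
      · exact Or.inr (Or.inl hw)
      · exact Or.inr (Or.inr (h v w hvw hv hw))
  exact h1 hp

/-- Some element of `P_T` is not in the kernel of `phi`. -/
def Good (K : Type u) [Field K] (T D : Set (Vtx n)) (c : Vtx n → Option (Vtx n)) : Prop :=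
  ∃ p ∈ cutIdeal K (crown n) T, phi K D c p ≠ 0

lemma good_of_mem {T D : Set (Vtx n)} (c : Vtx n → Option (Vtx n)) (v : Vtx n) (hT : v ∈ T)
    (hD : v ∉ D) : Good K T D c := by
  refine ⟨X (v, true), Ideal.subset_span (Or.inl ⟨v, hT, true, rfl⟩), ?_⟩
  simp [phi, img, hD, ex, monomial_eq_zero]

lemma good_of_minor {T D : Set (Vtx n)} (c : Vtx n → Option (Vtx n)) (v w : Vtx n)
    (hvT : v ∉ T) (hwT : w ∉ T)
    (hr : ((crown n).induce Tᶜ).Reachable ⟨v, hvT⟩ ⟨w, hwT⟩) (hv : v ∉ D) (hw : w ∉ D)
    (hc : c v ≠ c w) : Good K T D c := by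
  classical
  refine ⟨minor K v w, Ideal.subset_span (Or.inr ⟨⟨v, hvT⟩, ⟨w, hwT⟩, hr, rfl⟩), ?_⟩
  rw [phi_minor D c hv hw, sub_ne_zero]
  intro h
  have h1 := (MvPolynomial.monomial_left_injective (R := K) one_ne_zero) h
  have h2 := congrArg (fun e => e (Sum.inr (c v))) h1
  simp [Finsupp.single_apply, Ne.symm hc] at h2

/-- If `J_G : f = P_T` then `f` is in the kernel of `phi`. -/
lemma phi_eq_zero {T D : Set (Vtx n)} {c : Vtx n → Option (Vtx n)} (hc : Compat D c)
    (hg : Good K T D c) {f : MvPolynomial (Vtx n × Bool) K}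
    (hf : ∀ h, h * f ∈ edgeIdeal K (crown n) ↔ h ∈ cutIdeal K (crown n) T) :
    phi K D c f = 0 := by
  obtain ⟨p, hp, hpne⟩ := hg
  have h1 := edgeIdeal_le_ker hc ((hf p).2 hp)
  rw [map_mul] at h1
  exact (mul_eq_zero.1 h1).resolve_left hpne

end Pool.Agent.Q318.VN
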