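import Pool.Agent.Q318.VN.Basic

set_option autoImplicit false

/-!
# The cut sets of the crown graph and the parametrisations of their primes
-/

namespace Pool.Agent.Q318.VN

open MvPolynomial

universe u

variable {K : Type u} [Field K] {n : ℕ}

/-- The cut sets of the crown graph. -/
def cutSets (n : ℕ) : Set (Set (Vtx n)) :=
  {T | T = ∅ ∨ (∃ s, T = {v | v.1 = s}) ∨ (∃ s i, T = {v | v.1 = s ∧ v.2 ≠ i}) ∨
    ∃ i j, i ≠ j ∧ T = {v | v.2 ≠ i ∧ v.2 ≠ j}}

/-- The component colouring for the cut set `X ∖ {a_i}` or `Y ∖ {b_i}`. -/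
def colA (s : Bool) (i : Fin n) (v : Vtx n) : Option (Vtx n) :=
  if v = (!s, i) then some v else none

/-- The component colouring for the complement of `{a_i, a_j, b_i, b_j}`. -/
def colP (i j : Fin n) (v : Vtx n) : Option (Vtx n) :=
  if v = (false, i) ∨ v = (true, j) then none else some (false, j)

lemma compat_empty : Compat (∅ : Set (Vtx n)) (fun _ => none) := fun _ _ _ _ _ => rfl

lemma compat_full (s : Bool) : Compat ({v | v.1 = s} : Set (Vtx n)) some := by
  rintro ⟨a, i⟩ ⟨b, j⟩ ⟨h1, _⟩ h2 h3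
  simp only [Set.mem_ofPred_eq] at h1 h2 h3
  cases a <;> cases b <;> cases s <;> simp_all

lemma compat_almost (s : Bool) (i : Fin n) :
    Compat ({v | v.1 = s ∧ v.2 ≠ i} : Set (Vtx n)) (colA s i) := by
  rintro ⟨a, k⟩ ⟨b, l⟩ ⟨h1, h4⟩ h2 h3
  simp only [Set.mem_ofPred_eq, not_and, not_not] at h1 h2 h3 h4
  simp only [colA, Prod.mk.injEq]
  cases a <;> cases b <;> cases s <;> simp_all <;> exact fun e => h4 e.symm

lemma compat_pair {i j : Fin n} (hij : i ≠ j) :
    Compat ({v | v.2 ≠ i ∧ v.2 ≠ j} : Set (Vtx n)) (colP i j) := by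
  rintro ⟨a, k⟩ ⟨b, l⟩ ⟨h1, h4⟩ h2 h3
  simp only [Set.mem_ofPred_eq, not_and, not_not] at h1 h2 h3 h4
  simp only [colP, Prod.mk.injEq]
  by_cases hk : k = i
  · subst hk
    have hl : l = j := h3 (Ne.symm h4)
    subst hl
    cases a <;> cases b <;> simp_all <;> exact fun e => hij e.symm
  · have hk' : k = j := h2 hk
    subst hk'
    have hl : l = i := by
      by_contra hl
      exact h4 (h3 hl).symm
    subst hl
    cases a <;> cases b <;> simp_all

lemma exists_ne_two (hn : 4 ≤ n) (i j : Fin n) : ∃ k : Fin n, k ≠ i ∧ k ≠ j := by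
  have h : ((Finset.univ : Finset (Fin n)) \ {i, j}).Nonempty := by
    rw [← Finset.card_pos]
    have h1 := Finset.le_card_sdiff ({i, j} : Finset (Fin n)) Finset.univ
    have h2 : ({i, j} : Finset (Fin n)).card ≤ 2 := Finset.card_le_two
    rw [Finset.card_univ, Fintype.card_fin] at h1
    omega
  obtain ⟨k, hk⟩ := h
  simp only [Finset.mem_sdiff, Finset.mem_univ, true_and, Finset.mem_insert,
    Finset.mem_singleton, not_or] at hk
  exact ⟨k, hk⟩

lemma exists_ne_three (hn : 4 ≤ n) (i j l : Fin n) : ∃ k : Fin n, k ≠ i ∧ k ≠ j ∧ k ≠ l := by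
  have h : ((Finset.univ : Finset (Fin n)) \ {i, j, l}).Nonempty := by
    rw [← Finset.card_pos]
    have h1 := Finset.le_card_sdiff ({i, j, l} : Finset (Fin n)) Finset.univ
    have h2 : ({i, j, l} : Finset (Fin n)).card ≤ 3 := Finset.card_le_three
    rw [Finset.card_univ, Fintype.card_fin] at h1
    omega
  obtain ⟨k, hk⟩ := h
  simp only [Finset.mem_sdiff, Finset.mem_univ, true_and, Finset.mem_insert,
    Finset.mem_singleton, not_or] at hk
  exact ⟨k, hk⟩

lemma reach_two {T : Set (Vtx n)} {t : Bool} {i j k : Fin n} (hk : (t, k) ∉ T)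
    (hi : (!t, i) ∉ T) (hj : (!t, j) ∉ T) (hki : k ≠ i) (hkj : k ≠ j) :
    ((crown n).induce Tᶜ).Reachable ⟨(!t, i), hi⟩ ⟨(!t, j), hj⟩ := by
  have h1 : ((crown n).induce Tᶜ).Adj ⟨(!t, i), hi⟩ ⟨(t, k), hk⟩ := by
    simp only [SimpleGraph.comap_adj, crown]
    exact ⟨by simp, hki.symm⟩
  have h2 : ((crown n).induce Tᶜ).Adj ⟨(t, k), hk⟩ ⟨(!t, j), hj⟩ := by
    simp only [SimpleGraph.comap_adj, crown]
    exact ⟨by simp, hkj⟩
  exact h1.reachable.trans h2.reachable

lemma good_empty {T : Set (Vtx n)} (h : T ≠ ∅) (c : Vtx n → Option (Vtx n)) :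
    Good K T ∅ c := by
  obtain ⟨v, hv⟩ := Set.nonempty_iff_ne_empty.2 h
  exact good_of_mem c v hv (by simp)

lemma good_full (hn : 4 ≤ n) {T : Set (Vtx n)} (hT : T ∈ cutSets n) (t : Bool)
    (h : T ≠ {v | v.1 = t}) : Good K T {v | v.1 = t} some := by
  have key : ∀ (i j k : Fin n), i ≠ j → k ≠ i → k ≠ j → (t, k) ∉ T → (!t, i) ∉ T →
      (!t, j) ∉ T → Good K T {v | v.1 = t} some := by
    intro i j k hij hki hkj hk hi hj
    refine good_of_minor some (!t, i) (!t, j) hi hj (reach_two hk hi hj hki hkj) ?_ ?_ ?_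
    · simp
    · simp
    · simp [hij]
  rcases hT with rfl | ⟨s, rfl⟩ | ⟨s, i, rfl⟩ | ⟨i, j, hij, rfl⟩
  · obtain ⟨i, -⟩ := exists_ne_two hn ⟨0, by omega⟩ ⟨0, by omega⟩
    obtain ⟨j, hj, -⟩ := exists_ne_two hn i i
    obtain ⟨k, hk1, hk2⟩ := exists_ne_two hn i j
    exact key i j k hj.symm hk1 hk2 (by simp) (by simp) (by simp)
  · have hs : s ≠ t := fun e => h (by rw [e])
    exact good_of_mem some (s, ⟨0, by omega⟩) (by simp) (by simpa using hs)
  · by_cases hs : s = t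
    · subst hs
      obtain ⟨j, hj, -⟩ := exists_ne_two hn i i
      obtain ⟨k, hk1, hk2⟩ := exists_ne_two hn i j
      exact key j k i hk2.symm hj.symm hk1.symm (by simp) (by simp) (by simp)
    · obtain ⟨j, hj, -⟩ := exists_ne_two hn i i
      exact good_of_mem some (s, j) (by simp [hj]) (by simpa using hs)
  · obtain ⟨k, hk1, hk2⟩ := exists_ne_two hn i j
    exact good_of_mem some (!t, k) (by simp [hk1, hk2]) (by simp)

lemma good_almost (hn : 4 ≤ n) {T : Set (Vtx n)} (hT : T ∈ cutSets n) (t : Bool) (i : Fin n)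
    (h : T ≠ {v | v.1 = t ∧ v.2 ≠ i}) : Good K T {v | v.1 = t ∧ v.2 ≠ i} (colA t i) := by
  rcases hT with rfl | ⟨s, rfl⟩ | ⟨s, l, rfl⟩ | ⟨a, b, hab, rfl⟩
  · obtain ⟨j, hj, -⟩ := exists_ne_two hn i i
    obtain ⟨k, hk1, hk2⟩ := exists_ne_two hn i j
    refine good_of_minor _ (!t, i) (!t, j) (by simp) (by simp)
      (reach_two (t := t) (k := k) (by simp) (by simp) (by simp) hk1 hk2) ?_ ?_ ?_
    · simp
    · simp
    · simp [colA, hj]
  · by_cases hs : s = t
    · subst hs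
      exact good_of_mem _ (s, i) (by simp) (by simp)
    · exact good_of_mem _ (s, i) (by simp) (by simp)
  · by_cases hs : s = t
    · subst hs
      have hl : i ≠ l := fun e => h (by rw [e])
      exact good_of_mem _ (s, i) (by simp [hl]) (by simp)
    · obtain ⟨j, hj, -⟩ := exists_ne_two hn l l
      exact good_of_mem _ (s, j) (by simp [hj]) (by simp [hs])
  · obtain ⟨k, hk1, hk2⟩ := exists_ne_two hn a b
    exact good_of_mem _ (!t, k) (by simp [hk1, hk2]) (by simp)

lemma good_pair {t : Bool} {i j : Fin n} (hij : i ≠ j) :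
    Good K {v : Vtx n | v.1 = t ∧ v.2 ≠ i} {v | v.2 ≠ i ∧ v.2 ≠ j} (colP i j) :=
  good_of_mem _ (t, j) (by simp [hij.symm]) (by simp)

end Pool.Agent.Q318.VN
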