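import Pool.Agent.Q318.VN.Basic

set_option autoImplicit false

/-!
# Reduction of monomials modulo the binomial edge ideal of the crown graph
-/

namespace Pool.Agent.Q318.VN

open MvPolynomial

universe u

variable {K : Type u} [Field K] {n : ℕ}

lemma minor_mem {v w : Vtx n} (h : (crown n).Adj v w) : minor K v w ∈ edgeIdeal K (crown n) :=
  Ideal.subset_span ⟨v, w, h, rfl⟩

lemma hot_mem (s : Bool) {i j : Fin n} (h : i ≠ j) :
    (X ((s, i), s) * X ((!s, j), !s) - X ((s, i), !s) * X ((!s, j), s) :
      MvPolynomial (Vtx n × Bool) K) ∈ edgeIdeal K (crown n) := by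
  cases s
  · have := minor_mem (K := K) (v := (false, i)) (w := (true, j)) ⟨by simp, h⟩
    convert this using 1
    simp only [minor, Bool.not_false]
    ring
  · have := minor_mem (K := K) (v := (false, j)) (w := (true, i)) ⟨by simp, h.symm⟩
    convert this using 1
    simp only [minor, Bool.not_true]
    ring

/-- The weight of a variable. -/
def wv (p : Vtx n × Bool) : ℕ := if p.2 = p.1.1 then n - p.1.2 else 0

lemma mono_add_two (m0 : Mon n) (p q : Vtx n × Bool) :
    (monomial (m0 + Finsupp.single p 1 + Finsupp.single q 1) (1 : K)) =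
      monomial m0 1 * (X p * X q) := by
  simp only [X, monomial_mul, mul_one, add_assoc]

lemma mono_add_three (m0 : Mon n) (p q r : Vtx n × Bool) :
    (monomial (m0 + Finsupp.single p 1 + Finsupp.single q 1 + Finsupp.single r 1) (1 : K)) =
      monomial m0 1 * (X p * X q * X r) := by
  simp only [X, monomial_mul, mul_one, add_assoc]

lemma exists_add_two (m : Mon n) {p q : Vtx n × Bool} (hpq : p ≠ q) (hp : m p ≠ 0)
    (hq : m q ≠ 0) : ∃ m0 : Mon n, m = m0 + Finsupp.single p 1 + Finsupp.single q 1 := by
  refine ⟨m - (Finsupp.single p 1 + Finsupp.single q 1), ?_⟩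
  rw [add_assoc, tsub_add_cancel_of_le]
  intro r
  simp only [Finsupp.add_apply, Finsupp.single_apply]
  split_ifs with h1 h2 h2
  · exact absurd (h1.trans h2.symm) hpq
  · subst h1; omega
  · subst h2; omega
  · omega

lemma exists_add_three (m : Mon n) {p q r : Vtx n × Bool} (hpq : p ≠ q) (hpr : p ≠ r)
    (hqr : q ≠ r) (hp : m p ≠ 0) (hq : m q ≠ 0) (hr : m r ≠ 0) :
    ∃ m0 : Mon n, m = m0 + Finsupp.single p 1 + Finsupp.single q 1 + Finsupp.single r 1 := by
  refine ⟨m - (Finsupp.single p 1 + Finsupp.single q 1 + Finsupp.single r 1), ?_⟩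
  rw [add_assoc, add_assoc, ← add_assoc (Finsupp.single p 1), tsub_add_cancel_of_le]
  intro t
  simp only [Finsupp.add_apply, Finsupp.single_apply]
  split_ifs with h1 h2 h3 h3 h2 h3 h3
  · exact absurd (h1.trans h2.symm) hpq
  · exact absurd (h1.trans h2.symm) hpq
  · exact absurd (h1.trans h3.symm) hpr
  · subst h1; omega
  · exact absurd (h2.trans h3.symm) hqr
  · subst h2; omega
  · subst h3; omega
  · omega

lemma red_aux (N : ℕ) : ∀ m : Mon n, Finsupp.weight wv m ≤ N → ∃ m' : Mon n, Std m' ∧
    m'.degree = m.degree ∧ (monomial m (1 : K) - monomial m' 1) ∈ edgeIdeal K (crown n) := by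
  induction N using Nat.strong_induction_on with
  | _ N ih =>
    intro m hm
    by_cases h : Std m
    · exact ⟨m, h, rfl, by simp⟩
    · have hcases : (∃ (s : Bool) (i j : Fin n), i ≠ j ∧ m ((s, i), s) ≠ 0 ∧
          m ((!s, j), !s) ≠ 0) ∨
          ∃ (s : Bool) (i j k : Fin n), i < j ∧ k ≠ i ∧ k ≠ j ∧
            m ((s, i), s) ≠ 0 ∧ m ((s, j), !s) ≠ 0 ∧ m ((!s, k), s) ≠ 0 := by
        by_contra hcon
        push Not at hcon
        apply h
        refine ⟨fun s i j hij => ?_, fun s i j k hij hki hkj => ?_⟩
        · by_cases h1 : m ((s, i), s) = 0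
          · exact Or.inl h1
          · exact Or.inr (hcon.1 s i j hij h1)
        · by_cases h1 : m ((s, i), s) = 0
          · exact Or.inl h1
          · by_cases h2 : m ((s, j), !s) = 0
            · exact Or.inr (Or.inl h2)
            · exact Or.inr (Or.inr (hcon.2 s i j k hij hki hkj h1 h2))
      rcases hcases with ⟨s, i, j, hij, h1, h2⟩ | ⟨s, i, j, k, hij, hki, hkj, h1, h2, h3⟩
      · obtain ⟨m0, rfl⟩ := exists_add_two m (p := ((s, i), s)) (q := ((!s, j), !s))
          (by simp) h1 h2
        set m1 : Mon n := m0 + Finsupp.single ((s, i), !s) 1 + Finsupp.single ((!s, j), s) 1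
          with hm1
        have hlt : Finsupp.weight wv m1 < Finsupp.weight wv
            (m0 + Finsupp.single ((s, i), s) 1 + Finsupp.single ((!s, j), !s) 1) := by
          simp only [hm1, map_add, Finsupp.weight_single, wv]
          have := i.2
          simp
          omega
        obtain ⟨m', h3, h4, h5⟩ := ih _ (lt_of_lt_of_le hlt hm) m1 le_rfl
        refine ⟨m', h3, ?_, ?_⟩
        · rw [h4]; simp [hm1]
        · have h6 : monomial (m0 + Finsupp.single ((s, i), s) 1 +
              Finsupp.single ((!s, j), !s) 1) (1 : K) - monomial m1 1 ∈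
              edgeIdeal K (crown n) := by
            rw [hm1, mono_add_two, mono_add_two, ← mul_sub]
            exact Ideal.mul_mem_left _ _ (hot_mem s hij)
          have := Ideal.add_mem _ h6 h5
          simpa using this
      · have hij' : i ≠ j := ne_of_lt hij
        obtain ⟨m0, rfl⟩ := exists_add_three m (p := ((s, i), s)) (q := ((s, j), !s))
          (r := ((!s, k), s)) (by simp [hij']) (by simp) (by simp) h1 h2 h3
        set m1 : Mon n := m0 + Finsupp.single ((s, i), !s) 1 + Finsupp.single ((s, j), s) 1 +
          Finsupp.single ((!s, k), s) 1 with hm1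
        have hlt : Finsupp.weight wv m1 < Finsupp.weight wv
            (m0 + Finsupp.single ((s, i), s) 1 + Finsupp.single ((s, j), !s) 1 +
              Finsupp.single ((!s, k), s) 1) := by
          simp only [hm1, map_add, Finsupp.weight_single, wv]
          have h7 := j.2
          have h8 : (i : ℕ) < j := hij
          simp
          omega
        obtain ⟨m', h4, h5, h6⟩ := ih _ (lt_of_lt_of_le hlt hm) m1 le_rfl
        refine ⟨m', h4, ?_, ?_⟩
        · rw [h5]; simp [hm1]
        · have h7 : monomial (m0 + Finsupp.single ((s, i), s) 1 +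
              Finsupp.single ((s, j), !s) 1 + Finsupp.single ((!s, k), s) 1) (1 : K) -
              monomial m1 1 ∈ edgeIdeal K (crown n) := by
            rw [hm1, mono_add_three, mono_add_three, ← mul_sub]
            refine Ideal.mul_mem_left _ _ ?_
            have e1 := Ideal.mul_mem_left _ (X ((s, j), s)) (hot_mem (K := K) s hki.symm)
            have e2 := Ideal.mul_mem_left _ (X ((s, i), s)) (hot_mem (K := K) s hkj.symm)
            convert Ideal.sub_mem _ e1 e2 using 1
            ring
          have := Ideal.add_mem _ h7 h6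
          simpa using this

lemma red (m : Mon n) : ∃ m' : Mon n, Std m' ∧
    m'.degree = m.degree ∧ (monomial m (1 : K) - monomial m' 1) ∈ edgeIdeal K (crown n) :=
  red_aux _ m le_rfl

lemma exists_std {f : MvPolynomial (Vtx n × Bool) K} {d : ℕ}
    (hf : ∀ m ∈ f.support, m.degree ≤ d) :
    ∃ N : MvPolynomial (Vtx n × Bool) K, (∀ m ∈ N.support, Std m ∧ m.degree ≤ d) ∧
      f - N ∈ edgeIdeal K (crown n) := by
  classical
  choose r hr1 hr2 hr3 using fun m : Mon n => red (K := K) m
  refine ⟨∑ m ∈ f.support, monomial (r m) (coeff m f), ?_, ?_⟩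
  · intro m' hm'
    rw [mem_support_iff, coeff_sum] at hm'
    obtain ⟨m, hm, hne⟩ := Finset.exists_ne_zero_of_sum_ne_zero hm'
    rw [coeff_monomial] at hne
    split_ifs at hne with h
    · subst h
      exact ⟨hr1 m, (hr2 m).le.trans (hf m hm)⟩
    · exact absurd rfl hne
  · have h1 : f - ∑ m ∈ f.support, monomial (r m) (coeff m f) =
        ∑ m ∈ f.support, C (coeff m f) * (monomial m 1 - monomial (r m) 1) := by
      have h0 : (∑ m ∈ f.support, monomial m (coeff m f)) = f := f.as_sum.symm
      calc f - ∑ m ∈ f.support, monomial (r m) (coeff m f)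
          = (∑ m ∈ f.support, monomial m (coeff m f)) -
              ∑ m ∈ f.support, monomial (r m) (coeff m f) := by rw [h0]
        _ = _ := by
          rw [← Finset.sum_sub_distrib]
          refine Finset.sum_congr rfl fun m _ => ?_
          rw [mul_sub, C_mul_monomial, C_mul_monomial, mul_one]
    rw [h1]
    exact Ideal.sum_mem _ fun m _ => Ideal.mul_mem_left _ _ (hr3 m)

end Pool.Agent.Q318.VN
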