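import Pool.Agent.Q318.VN.Sep
import Pool.Agent.Q318.VN.Red

set_option autoImplicit false

/-!
# No form of degree at most three has a prime `P_T` of the crown graph as its colon ideal
-/

namespace Pool.Agent.Q318.VN

open MvPolynomial

universe u

variable {K : Type u} [Field K] {n : ℕ}

lemma eq_not_of_ne {t s : Bool} (h : t ≠ s) : t = !s := by
  cases t <;> cases s <;> simp_all

lemma deg_eq (m : Mon n) : m.degree = ∑ i, (m ((false, i), false) + m ((false, i), true)) +
    ∑ i, (m ((true, i), false) + m ((true, i), true)) := by
  rw [Finsupp.degree_eq_sum, Fintype.sum_prod_type, Fintype.sum_prod_type]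
  simp only [Fintype.sum_bool]
  rw [add_comm]
  congr 1
  · exact Finset.sum_congr rfl fun i _ => add_comm _ _
  · exact Finset.sum_congr rfl fun i _ => add_comm _ _

lemma deg_eq' (m : Mon n) (s : Bool) :
    m.degree = ∑ i, (m ((s, i), false) + m ((s, i), true)) +
    ∑ i, (m ((!s, i), false) + m ((!s, i), true)) := by
  rw [deg_eq]
  cases s
  · rfl
  · rw [add_comm]; rfl

lemma card_le_sum (m : Mon n) (s : Bool) :
    (Finset.univ.filter fun i => m ((s, i), false) + m ((s, i), true) ≠ 0).card ≤
      ∑ i, (m ((s, i), false) + m ((s, i), true)) := by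
  rw [Finset.card_eq_sum_ones, Finset.sum_filter]
  refine Finset.sum_le_sum fun i _ => ?_
  split_ifs with h <;> omega

lemma sep_main (hn : 4 ≤ n) {T : Set (Vtx n)} (hT : T ∈ cutSets n) {m : Mon n} (hm : Std m)
    (hd : m.degree ≤ 3) : Sep K T m := by
  set A : Bool → Finset (Fin n) := fun s => Finset.univ.filter
    fun i => m ((s, i), false) + m ((s, i), true) ≠ 0 with hA
  have hAc : ∀ s, (A s).card ≤ ∑ i, (m ((s, i), false) + m ((s, i), true)) := card_le_sum m
  have hsupp : ∀ s i, i ∉ A s → m ((s, i), false) = 0 ∧ m ((s, i), true) = 0 := by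
    intro s i hi
    simp only [hA, Finset.mem_filter, Finset.mem_univ, true_and, not_not] at hi
    omega
  have hmem : ∀ s, ∀ i ∈ A s, m ((s, i), false) + m ((s, i), true) ≠ 0 := by
    intro s i hi
    simpa [hA] using hi
  obtain ⟨s, hs⟩ : ∃ s, (A (!s)).card ≤ 1 := by
    by_contra hcon
    push Not at hcon
    have h1 := hcon false
    have h2 := hcon true
    simp only [Bool.not_false, Bool.not_true] at h1 h2
    have h3 := hAc true
    have h4 := hAc false
    have h5 := deg_eq m
    omega
  have hdeg := deg_eq' m s
  have hs1 := hAc s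
  have hs2 := hAc (!s)
  rcases Nat.lt_or_ge (A (!s)).card 1 with hs0 | hs0
  · have h0 : A (!s) = ∅ := Finset.card_eq_zero.1 (by omega)
    refine sep_one_side hn hT s (fun i => hsupp _ i (by rw [h0]; simp)) ?_ ?_
    · have : (A s).card ≤ 3 := by omega
      exact this
    · omega
  · obtain ⟨k, hk⟩ := Finset.card_eq_one.1 (le_antisymm hs hs0)
    have hksum : ∑ i, (m ((!s, i), false) + m ((!s, i), true)) ≥ 1 := by omega
    have hkne := hmem (!s) k (by rw [hk]; simp)
    have hkW : ∀ l, l ≠ k → m ((!s, l), false) = 0 ∧ m ((!s, l), true) = 0 := by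
      intro l hl
      exact hsupp _ l (by rw [hk]; simpa using hl)
    have hksum' : ∑ i, (m ((!s, i), false) + m ((!s, i), true)) =
        m ((!s, k), false) + m ((!s, k), true) := by
      refine Finset.sum_eq_single k (fun l _ hl => ?_) (by simp)
      have := hkW l hl
      omega
    have hcases : (A s).card = 0 ∨ (A s).card = 1 ∨ (A s).card = 2 := by omega
    rcases hcases with hc | hc | hc
    · rw [Finset.card_eq_zero] at hc
      refine sep_one_side hn hT (!s) (fun i => ?_) ?_ ?_
      · rw [Bool.not_not]
        exact hsupp _ i (by rw [hc]; simp)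
      · have : (A (!s)).card ≤ 3 := by omega
        exact this
      · omega
    · obtain ⟨i, hi⟩ := Finset.card_eq_one.1 hc
      have hiW : ∀ l, l ≠ i → m ((s, l), false) = 0 ∧ m ((s, l), true) = 0 := by
        intro l hl
        exact hsupp _ l (by rw [hi]; simpa using hl)
      have hW : ∀ w, w ≠ (s, i) → w ≠ (!s, k) → m (w, false) = 0 ∧ m (w, true) = 0 := by
        rintro ⟨t, l⟩ h1 h2
        by_cases ht : t = s
        · subst ht
          exact hiW l (fun e => h1 (by rw [e]))
        · have : t = !s := eq_not_of_ne ht
          subst this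
          exact hkW l (fun e => h2 (by rw [e]))
      have hal : ∀ D : Set (Vtx n), (s, i) ∉ D → (!s, k) ∉ D → Alive D m := by
        intro D h1 h2 p hp hpD
        obtain ⟨w, b⟩ := p
        by_cases e1 : w = (s, i)
        · subst e1; exact h1 hpD
        · by_cases e2 : w = (!s, k)
          · subst e2; exact h2 hpD
          · have := hW w e1 e2
            cases b
            · exact hp this.1
            · exact hp this.2
      by_cases hik : i = k
      · subst hik
        by_cases hTf : T = {v | v.1 = s ∧ v.2 ≠ i}
        · refine ⟨_, _, compat_almost (!s) i, good_almost hn hT (!s) i ?_,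
            hal _ (by simp) (by simp), fun m' _ _ hE => ?_⟩
          · rw [hTf]
            intro he
            obtain ⟨j, hj, -⟩ := exists_ne_two hn i i
            have : ((s, j) : Vtx n) ∈ ({v | v.1 = !s ∧ v.2 ≠ i} : Set (Vtx n)) := by
              rw [← he]; simp [hj]
            simp at this
          · exact l_indep hE (s, i) (!s, i) (by simp) (by simp [colA]) hW
        · refine ⟨_, _, compat_almost s i, good_almost hn hT s i hTf,
            hal _ (by simp) (by simp), fun m' _ _ hE => ?_⟩
          exact l_indep hE (s, i) (!s, i) (by simp) (by simp [colA]) hW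
      · by_cases hTf : T = ∅
        · refine ⟨_, _, compat_almost s i, good_almost hn hT s i ?_,
            hal _ (by simp) (by simp), fun m' hm' _ hE => ?_⟩
          · rw [hTf]
            intro he
            obtain ⟨j, hj, -⟩ := exists_ne_two hn i i
            have : ((s, j) : Vtx n) ∈ (∅ : Set (Vtx n)) := by
              rw [he]; simp [hj]
            simp at this
          · exact l_edge hE hm hm' s i k hik (by simp [colA, Ne.symm hik]) hW
        · refine ⟨_, _, compat_empty, good_empty hTf _, hal _ (by simp) (by simp),
            fun m' hm' _ hE => ?_⟩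
          exact l_edge hE hm hm' s i k hik rfl hW
    · obtain ⟨i, j, hij, hi⟩ := Finset.card_eq_two.1 hc
      have hine := hmem s i (by rw [hi]; simp)
      have hjne := hmem s j (by rw [hi]; simp)
      have hiW : ∀ l, l ≠ i → l ≠ j → m ((s, l), false) = 0 ∧ m ((s, l), true) = 0 := by
        intro l hl hl'
        exact hsupp _ l (by rw [hi]; simp [hl, hl'])
      have hisum : m ((s, i), false) + m ((s, i), true) +
          (m ((s, j), false) + m ((s, j), true)) ≤
          ∑ i, (m ((s, i), false) + m ((s, i), true)) := by
        rw [← Finset.sum_pair (f := fun i => m ((s, i), false) + m ((s, i), true)) hij]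
        exact Finset.sum_le_sum_of_subset (Finset.subset_univ _)
      -- the general statement, symmetric in `i` and `j`
      have hW : ∀ w, w ≠ (s, i) → w ≠ (s, j) → w ≠ (!s, k) →
          m (w, false) = 0 ∧ m (w, true) = 0 := by
        rintro ⟨t, l⟩ h1 h2 h3
        by_cases ht : t = s
        · subst ht
          exact hiW l (fun e => h1 (by rw [e])) (fun e => h2 (by rw [e]))
        · have : t = !s := eq_not_of_ne ht
          subst this
          exact hkW l (fun e => h3 (by rw [e]))
      have hal : ∀ D : Set (Vtx n), (s, i) ∉ D → (s, j) ∉ D → (!s, k) ∉ D → Alive D m := by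
        intro D h1 h2 h3 p hp hpD
        obtain ⟨w, b⟩ := p
        by_cases e1 : w = (s, i)
        · subst e1; exact h1 hpD
        · by_cases e2 : w = (s, j)
          · subst e2; exact h2 hpD
          · by_cases e3 : w = (!s, k)
            · subst e3; exact h3 hpD
            · have := hW w e1 e2 e3
              cases b
              · exact hp this.1
              · exact hp this.2
      -- the case of a matched pair
      have key : ∀ a b : Fin n, a ≠ b → k = a → ((a = i ∧ b = j) ∨ (a = j ∧ b = i)) →
          Sep K T m := by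
        intro a b hab hka hor
        subst hka
        have hW2 : ∀ w, w ≠ (s, k) → w ≠ (s, b) → w ≠ (!s, k) →
            m (w, false) = 0 ∧ m (w, true) = 0 := by
          intro w h1 h2 h3
          rcases hor with ⟨e1, e2⟩ | ⟨e1, e2⟩
          · exact hW w (by rw [← e1]; exact h1) (by rw [← e2]; exact h2) h3
          · exact hW w (by rw [← e2]; exact h2) (by rw [← e1]; exact h1) h3
        have hal2 : ∀ D : Set (Vtx n), (s, k) ∉ D → (s, b) ∉ D → (!s, k) ∉ D → Alive D m := by
          intro D h1 h2 h3
          rcases hor with ⟨e1, e2⟩ | ⟨e1, e2⟩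
          · exact hal D (by rw [← e1]; exact h1) (by rw [← e2]; exact h2) h3
          · exact hal D (by rw [← e2]; exact h2) (by rw [← e1]; exact h1) h3
        by_cases hTf : T = {v | v.1 = !s ∧ v.2 ≠ k}
        · refine ⟨_, _, compat_pair hab, ?_, hal2 _ (by simp) (by simp) (by simp),
            fun m' hm' _ hE => ?_⟩
          · rw [hTf]; exact good_pair hab
          · refine l_edge_plus hE hm hm' s k b hab ?_ ?_ hW2
            · cases s <;> simp [colP, hab, hab.symm]
            · cases s <;> simp [colP, hab, hab.symm]
        · refine ⟨_, _, compat_almost (!s) k, good_almost hn hT (!s) k hTf,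
            hal2 _ (by simp) (by simp) (by simp), fun m' hm' _ hE => ?_⟩
          refine l_edge_plus hE hm hm' s k b hab ?_ ?_ hW2
          · simp [colA, hab.symm]
          · simp [colA, hab.symm]
      by_cases hki : k = i
      · exact key i j hij hki (Or.inl ⟨rfl, rfl⟩)
      · by_cases hkj : k = j
        · exact key j i hij.symm hkj (Or.inr ⟨rfl, rfl⟩)
        · have key2 : ∀ (D : Set (Vtx n)) (c : Vtx n → Option (Vtx n)), Compat D c →
              Good K T D c → (s, i) ∉ D → (s, j) ∉ D → (!s, k) ∉ D →
              c (s, i) = c (!s, k) → c (s, j) = c (!s, k) → Sep K T m := by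
            intro D c h1 h2 h3 h4 h5 h6 h7
            refine ⟨D, c, h1, h2, hal D h3 h4 h5, fun m' hm' _ hE => ?_⟩
            rcases lt_or_gt_of_ne hij with hlt | hlt
            · exact l_path hE hm hm' s i j k hlt hki hkj h6 h7 (by omega) (by omega)
                (by omega) hine hjne hkne hW
            · exact l_path hE hm hm' s j i k hlt hkj hki h7 h6 (by omega) (by omega)
                (by omega) hjne hine hkne (fun w a1 a2 a3 => hW w a2 a1 a3)
          by_cases hTf : T = ∅
          · refine key2 _ _ (compat_almost (!s) k) (good_almost hn hT (!s) k ?_)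
              (by simp) (by simp) (by simp) (by simp [colA, Ne.symm hki])
              (by simp [colA, Ne.symm hkj])
            rw [hTf]
            intro he
            have : ((!s, i) : Vtx n) ∈ (∅ : Set (Vtx n)) := by
              rw [he]; simp [Ne.symm hki]
            simp at this
          · exact key2 _ _ compat_empty (good_empty hTf _) (by simp) (by simp) (by simp) rfl rfl

/-- `P_T` is a proper ideal. -/
lemma cutIdeal_ne_top (G : SimpleGraph (Vtx n)) (T : Set (Vtx n)) :
    (1 : MvPolynomial (Vtx n × Bool) K) ∉ cutIdeal K G T := by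
  intro h
  have h1 : cutIdeal K G T ≤ RingHom.ker (aeval (fun _ => (0 : K)) :
      MvPolynomial (Vtx n × Bool) K →ₐ[K] K) := by
    rw [cutIdeal, Ideal.span_le]
    rintro p (⟨v, _, b, rfl⟩ | ⟨v, w, _, rfl⟩)
    · simp [RingHom.mem_ker]
    · simp [RingHom.mem_ker, minor]
  have h2 := h1 h
  rw [RingHom.mem_ker, map_one] at h2
  exact one_ne_zero h2

/-- **Main theorem.** No polynomial of degree at most three has colon ideal `P_T`. -/
theorem main (hn : 4 ≤ n) {T : Set (Vtx n)} (hT : T ∈ cutSets n)
    (f : MvPolynomial (Vtx n × Bool) K) (hd : f.totalDegree ≤ 3) :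
    ¬ ∀ h, h * f ∈ edgeIdeal K (crown n) ↔ h ∈ cutIdeal K (crown n) T := by
  intro hf
  have hsup : ∀ m ∈ f.support, m.degree ≤ 3 := by
    intro m hm
    refine le_trans ?_ hd
    rw [Finsupp.degree_apply]
    exact le_totalDegree hm
  obtain ⟨N, hN, hfN⟩ := exists_std hsup
  have hN0 : N = 0 := by
    ext m
    rw [coeff_zero]
    by_contra hne
    obtain ⟨hm1, hm2⟩ := hN m (mem_support_iff.2 hne)
    obtain ⟨D, c, hc, hg, hal, hsep⟩ := sep_main (K := K) hn hT hm1 hm2
    have h1 : phi K D c N = 0 := by
      have h2 := edgeIdeal_le_ker hc hfN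
      rw [map_sub, phi_eq_zero hc hg hf, zero_sub, neg_eq_zero] at h2
      exact h2
    exact hne (coeff_eq_zero (S := {m | Std m ∧ m.degree ≤ 3}) hN h1 hal
      (fun m' hm' ha hE => hsep m' hm'.1 ha hE))
  rw [hN0, sub_zero] at hfN
  exact cutIdeal_ne_top (crown n) T ((hf 1).1 (by rwa [one_mul]))

end Pool.Agent.Q318.VN
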