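import Pool.Agent.Q318.VN.Cuts

set_option autoImplicit false

/-!
# Standard monomials of degree at most three are separated
-/

namespace Pool.Agent.Q318.VN

open MvPolynomial

universe u

variable {K : Type u} [Field K] {n : ℕ}

lemma sum3 {f : Vtx n → ℕ} {u v w : Vtx n} (huv : u ≠ v) (huw : u ≠ w) (hvw : v ≠ w) :
    ∑ x ∈ ({u, v, w} : Finset (Vtx n)), f x = f u + f v + f w := by
  rw [Finset.sum_insert (by simp [huv, huw]), Finset.sum_pair hvw, add_assoc]

/-- All classes are separated. -/
lemma l_full {m m' : Mon n} (hE : E some m' = E some m) : m' = m := by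
  obtain ⟨h1, h2⟩ := E_eq hE Finset.univ (by simp)
  refine mon_ext Finset.univ (by simp) h1 fun v _ => ?_
  have := h2 (some v)
  simpa using this

lemma l_indep {c : Vtx n → Option (Vtx n)} {m m' : Mon n} (hE : E c m' = E c m) (u v : Vtx n)
    (huv : u ≠ v) (hc : c u ≠ c v)
    (hW : ∀ w, w ≠ u → w ≠ v → m (w, false) = 0 ∧ m (w, true) = 0) : m' = m := by
  have hW' : ∀ w ∉ ({u, v} : Finset (Vtx n)), m (w, false) = 0 ∧ m (w, true) = 0 := by
    intro w hw
    simp only [Finset.mem_insert, Finset.mem_singleton, not_or] at hw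
    exact hW w hw.1 hw.2
  obtain ⟨h1, h2⟩ := E_eq hE {u, v} hW'
  refine mon_ext {u, v} hW' h1 fun w hw => ?_
  have h3 := h2 (c u)
  have h4 := h2 (c v)
  rw [Finset.sum_pair huv, Finset.sum_pair huv] at h3 h4
  simp only [if_true, if_neg hc, if_neg (Ne.symm hc)] at h3 h4
  simp only [Finset.mem_insert, Finset.mem_singleton] at hw
  rcases hw with rfl | rfl <;> omega

lemma l_edge {c : Vtx n → Option (Vtx n)} {m m' : Mon n} (hE : E c m' = E c m) (hm : Std m)
    (hm' : Std m') (s : Bool) (i j : Fin n) (hij : i ≠ j) (hc : c (s, i) = c (!s, j))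
    (hW : ∀ w, w ≠ (s, i) → w ≠ (!s, j) → m (w, false) = 0 ∧ m (w, true) = 0) : m' = m := by
  have huv : ((s, i) : Vtx n) ≠ (!s, j) := by simp
  have hW' : ∀ w ∉ ({(s, i), (!s, j)} : Finset (Vtx n)), m (w, false) = 0 ∧ m (w, true) = 0 := by
    intro w hw
    simp only [Finset.mem_insert, Finset.mem_singleton, not_or] at hw
    exact hW w hw.1 hw.2
  obtain ⟨h1, h2⟩ := E_eq hE {(s, i), (!s, j)} hW'
  refine mon_ext {(s, i), (!s, j)} hW' h1 fun w hw => ?_
  have h3 := h2 (c (s, i))
  rw [Finset.sum_pair huv, Finset.sum_pair huv] at h3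
  simp only [if_true, ← hc] at h3
  have h5 := h1 (s, i)
  have h6 := h1 (!s, j)
  have h7 := hm.1 s i j hij
  have h8 := hm'.1 s i j hij
  simp only [Finset.mem_insert, Finset.mem_singleton] at hw
  rcases hw with rfl | rfl <;> cases s <;> simp only [Bool.not_false, Bool.not_true] at * <;>
    omega

lemma l_path {c : Vtx n → Option (Vtx n)} {m m' : Mon n} (hE : E c m' = E c m) (hm : Std m)
    (hm' : Std m') (s : Bool) (i j k : Fin n) (hij : i < j) (hki : k ≠ i) (hkj : k ≠ j)
    (hc : c (s, i) = c (!s, k)) (hc' : c (s, j) = c (!s, k))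
    (hi : m ((s, i), false) + m ((s, i), true) ≤ 1)
    (hj : m ((s, j), false) + m ((s, j), true) ≤ 1)
    (hk : m ((!s, k), false) + m ((!s, k), true) ≤ 1)
    (hi' : m ((s, i), false) + m ((s, i), true) ≠ 0)
    (hj' : m ((s, j), false) + m ((s, j), true) ≠ 0)
    (hk' : m ((!s, k), false) + m ((!s, k), true) ≠ 0)
    (hW : ∀ w, w ≠ (s, i) → w ≠ (s, j) → w ≠ (!s, k) → m (w, false) = 0 ∧ m (w, true) = 0) :
    m' = m := by
  have hne : i ≠ j := ne_of_lt hij
  have huv : ((s, i) : Vtx n) ≠ (s, j) := by simp [hne]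
  have huw : ((s, i) : Vtx n) ≠ (!s, k) := by simp
  have hvw : ((s, j) : Vtx n) ≠ (!s, k) := by simp
  have hW' : ∀ w ∉ ({(s, i), (s, j), (!s, k)} : Finset (Vtx n)),
      m (w, false) = 0 ∧ m (w, true) = 0 := by
    intro w hw
    simp only [Finset.mem_insert, Finset.mem_singleton, not_or] at hw
    exact hW w hw.1 hw.2.1 hw.2.2
  obtain ⟨h1, h2⟩ := E_eq hE {(s, i), (s, j), (!s, k)} hW'
  refine mon_ext {(s, i), (s, j), (!s, k)} hW' h1 fun w hw => ?_
  have h3 := h2 (c (!s, k))
  rw [sum3 huv huw hvw, sum3 huv huw hvw] at h3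
  simp only [if_true, hc, hc'] at h3
  have h5 := h1 (s, i)
  have h6 := h1 (s, j)
  have h7 := h1 (!s, k)
  have a1 := hm.1 s i k hki.symm
  have a2 := hm.1 s j k hkj.symm
  have a3 := hm'.1 s i k hki.symm
  have a4 := hm'.1 s j k hkj.symm
  have a5 := hm.2 s i j k hij hki hkj
  have a6 := hm'.2 s i j k hij hki hkj
  simp only [Finset.mem_insert, Finset.mem_singleton] at hw
  rcases hw with rfl | rfl | rfl <;> cases s <;>
    simp only [Bool.not_false, Bool.not_true] at * <;> omega

lemma l_edge_plus {c : Vtx n → Option (Vtx n)} {m m' : Mon n} (hE : E c m' = E c m)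
    (hm : Std m) (hm' : Std m') (s : Bool) (i j : Fin n) (hij : i ≠ j)
    (hc : c (s, j) = c (!s, i)) (hc' : c (s, i) ≠ c (s, j))
    (hW : ∀ w, w ≠ (s, i) → w ≠ (s, j) → w ≠ (!s, i) → m (w, false) = 0 ∧ m (w, true) = 0) :
    m' = m := by
  have huv : ((s, i) : Vtx n) ≠ (s, j) := by simp [hij]
  have huw : ((s, i) : Vtx n) ≠ (!s, i) := by simp
  have hvw : ((s, j) : Vtx n) ≠ (!s, i) := by simp
  have hW' : ∀ w ∉ ({(s, i), (s, j), (!s, i)} : Finset (Vtx n)),
      m (w, false) = 0 ∧ m (w, true) = 0 := by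
    intro w hw
    simp only [Finset.mem_insert, Finset.mem_singleton, not_or] at hw
    exact hW w hw.1 hw.2.1 hw.2.2
  obtain ⟨h1, h2⟩ := E_eq hE {(s, i), (s, j), (!s, i)} hW'
  refine mon_ext {(s, i), (s, j), (!s, i)} hW' h1 fun w hw => ?_
  have h3 := h2 (c (s, j))
  have h4 := h2 (c (s, i))
  rw [sum3 huv huw hvw, sum3 huv huw hvw] at h3 h4
  simp only [if_true, ← hc, if_neg hc', if_neg (Ne.symm hc')] at h3 h4
  have h5 := h1 (s, i)
  have h6 := h1 (s, j)
  have h7 := h1 (!s, i)
  have a1 := hm.1 s j i hij.symm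
  have a2 := hm'.1 s j i hij.symm
  simp only [Finset.mem_insert, Finset.mem_singleton] at hw
  rcases hw with rfl | rfl | rfl <;> cases s <;>
    simp only [Bool.not_false, Bool.not_true] at * <;> omega

lemma l_three {c : Vtx n → Option (Vtx n)} {m m' : Mon n} (hE : E c m' = E c m)
    (u v w : Vtx n) (huv : u ≠ v) (huw : u ≠ w) (hvw : v ≠ w)
    (hc : c v = c w) (hc' : c u ≠ c w)
    (hv : m (v, false) + m (v, true) ≤ 1) (hw : m (w, false) + m (w, true) ≤ 1)
    (hvw' : m (v, false) = m (w, false)) (hg : m (v, false) + m (v, true) =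
      m (w, false) + m (w, true))
    (hW : ∀ x, x ≠ u → x ≠ v → x ≠ w → m (x, false) = 0 ∧ m (x, true) = 0) :
    m' = m := by
  have hW' : ∀ x ∉ ({u, v, w} : Finset (Vtx n)), m (x, false) = 0 ∧ m (x, true) = 0 := by
    intro x hx
    simp only [Finset.mem_insert, Finset.mem_singleton, not_or] at hx
    exact hW x hx.1 hx.2.1 hx.2.2
  obtain ⟨h1, h2⟩ := E_eq hE {u, v, w} hW'
  refine mon_ext {u, v, w} hW' h1 fun x hx => ?_
  have h3 := h2 (c u)
  have h4 := h2 (c w)
  rw [sum3 huv huw hvw, sum3 huv huw hvw] at h3 h4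
  simp only [if_true, hc, if_neg hc', if_neg (Ne.symm hc')] at h3 h4
  have h5 := h1 u
  have h6 := h1 v
  have h7 := h1 w
  simp only [Finset.mem_insert, Finset.mem_singleton] at hx
  rcases hx with rfl | rfl | rfl <;> omega

/-- There is a parametrisation whose kernel is the prime of another cut set and which separates
`m` from the other standard monomials. -/
def Sep (K : Type u) [Field K] (T : Set (Vtx n)) (m : Mon n) : Prop :=
  ∃ (D : Set (Vtx n)) (c : Vtx n → Option (Vtx n)), Compat D c ∧ Good K T D c ∧ Alive D m ∧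
    ∀ m', Std m' → Alive D m' → E c m' = E c m → m' = m

/-- The monomial is supported on one side. -/
lemma sep_one_side (hn : 4 ≤ n) {T : Set (Vtx n)} (hT : T ∈ cutSets n) {m : Mon n} (s : Bool)
    (h0 : ∀ i, m ((!s, i), false) = 0 ∧ m ((!s, i), true) = 0)
    (h3 : (Finset.univ.filter fun i => m ((s, i), false) + m ((s, i), true) ≠ 0).card ≤ 3)
    (hd : ∑ i, (m ((s, i), false) + m ((s, i), true)) ≤ 3) : Sep K T m := by
  have hal : ∀ p, m p ≠ 0 → p.1.1 = s := by
    rintro ⟨⟨t, i⟩, b⟩ hp
    by_contra ht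
    have : t = !s := by cases t <;> cases s <;> simp_all
    subst this
    cases b
    · exact hp (h0 i).1
    · exact hp (h0 i).2
  have h0' : ∀ (w : Vtx n), w.1 ≠ s → m (w, false) = 0 ∧ m (w, true) = 0 := by
    rintro ⟨t, i⟩ ht
    have : t = !s := by cases t <;> cases s <;> simp_all
    subst this
    exact h0 i
  by_cases hTf : T = {v | v.1 = !s}
  · set A := Finset.univ.filter fun i => m ((s, i), false) + m ((s, i), true) ≠ 0 with hA
    have hsupp : ∀ i, i ∉ A → m ((s, i), false) = 0 ∧ m ((s, i), true) = 0 := by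
      intro i hi
      simp only [hA, Finset.mem_filter, Finset.mem_univ, true_and, not_not] at hi
      omega
    have hcomm : ∀ i0 : Fin n, Compat ({v | v.1 = !s ∧ v.2 ≠ i0} : Set (Vtx n)) (colA (!s) i0) ∧
        Good K T {v | v.1 = !s ∧ v.2 ≠ i0} (colA (!s) i0) ∧
        Alive {v | v.1 = !s ∧ v.2 ≠ i0} m := by
      intro i0
      refine ⟨compat_almost _ _, good_almost hn hT _ _ ?_, ?_⟩
      · rw [hTf]
        intro he
        have : ((!s, i0) : Vtx n) ∈ ({v | v.1 = !s ∧ v.2 ≠ i0} : Set (Vtx n)) := by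
          rw [← he]; simp
        simp at this
      · intro p hp
        simp [hal p hp]
    have hcol : ∀ i0 j : Fin n, colA (!s) i0 (s, j) = if j = i0 then some (s, j) else none := by
      intro i0 j
      simp [colA]
    have hcard : A.card = 0 ∨ A.card = 1 ∨ A.card = 2 ∨ A.card = 3 := by omega
    rcases hcard with hc | hc | hc | hc
    · rw [Finset.card_eq_zero] at hc
      obtain ⟨i, -⟩ := exists_ne_two hn ⟨0, by omega⟩ ⟨0, by omega⟩
      obtain ⟨j, hj, -⟩ := exists_ne_two hn i i
      obtain ⟨a1, a2, a3⟩ := hcomm i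
      refine ⟨_, _, a1, a2, a3, fun m' _ _ hE => ?_⟩
      refine l_indep hE (s, i) (s, j) (by simp [hj.symm]) ?_ ?_
      · rw [hcol, hcol]; simp [hj]
      · intro w _ _
        obtain ⟨t, l⟩ := w
        by_cases ht : t = s
        · subst ht
          exact hsupp l (by simp [hc])
        · exact h0' _ ht
    · rw [Finset.card_eq_one] at hc
      obtain ⟨i, hi⟩ := hc
      obtain ⟨j, hj, -⟩ := exists_ne_two hn i i
      obtain ⟨a1, a2, a3⟩ := hcomm i
      refine ⟨_, _, a1, a2, a3, fun m' _ _ hE => ?_⟩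
      refine l_indep hE (s, i) (s, j) (by simp [hj.symm]) ?_ ?_
      · rw [hcol, hcol]; simp [hj]
      · intro w hw _
        obtain ⟨t, l⟩ := w
        by_cases ht : t = s
        · subst ht
          exact hsupp l (by rw [hi]; simpa using hw)
        · exact h0' _ ht
    · rw [Finset.card_eq_two] at hc
      obtain ⟨i, j, hij, hi⟩ := hc
      obtain ⟨a1, a2, a3⟩ := hcomm i
      refine ⟨_, _, a1, a2, a3, fun m' _ _ hE => ?_⟩
      refine l_indep hE (s, i) (s, j) (by simp [hij]) ?_ ?_
      · rw [hcol, hcol]; simp [hij.symm]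
      · intro w hw hw'
        obtain ⟨t, l⟩ := w
        by_cases ht : t = s
        · subst ht
          refine hsupp l ?_
          rw [hi]
          simp only [Finset.mem_insert, Finset.mem_singleton, not_or]
          exact ⟨fun e => hw (by rw [e]), fun e => hw' (by rw [e])⟩
        · exact h0' _ ht
    · rw [Finset.card_eq_three] at hc
      obtain ⟨i, j, k, hij, hik, hjk, hi⟩ := hc
      have hsum : ∑ l ∈ A, (m ((s, l), false) + m ((s, l), true)) ≤ 3 :=
        (Finset.sum_le_sum_of_subset (Finset.subset_univ A)).trans hd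
      have hmem : ∀ l ∈ A, m ((s, l), false) + m ((s, l), true) ≠ 0 := by
        intro l hl
        simpa [hA] using hl
      have hi1 := hmem i (by rw [hi]; simp)
      have hj1 := hmem j (by rw [hi]; simp)
      have hk1 := hmem k (by rw [hi]; simp)
      rw [hi, Finset.sum_insert (by simp [hij, hik]), Finset.sum_pair hjk] at hsum
      have key : ∀ a b d : Fin n, a ≠ b → a ≠ d → b ≠ d → A = {a, b, d} →
          m ((s, b), false) + m ((s, b), true) = 1 → m ((s, d), false) + m ((s, d), true) = 1 →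
          m ((s, b), false) = m ((s, d), false) → Sep K T m := by
        intro a b d hab had hbd hA' hb1 hd1 hbd'
        obtain ⟨a1, a2, a3⟩ := hcomm a
        refine ⟨_, _, a1, a2, a3, fun m' _ _ hE => ?_⟩
        refine l_three hE (s, a) (s, b) (s, d) (by simp [hab]) (by simp [had]) (by simp [hbd])
          ?_ ?_ (by omega) (by omega) hbd' (by omega) ?_
        · rw [hcol, hcol]; simp [hab.symm, had.symm]
        · rw [hcol, hcol]; simp [had.symm]
        · intro w hw hw' hw''
          obtain ⟨t, l⟩ := w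
          by_cases ht : t = s
          · subst ht
            refine hsupp l ?_
            rw [hA']
            simp only [Finset.mem_insert, Finset.mem_singleton, not_or]
            exact ⟨fun e => hw (by rw [e]), fun e => hw' (by rw [e]), fun e => hw'' (by rw [e])⟩
          · exact h0' _ ht
      have h1 : m ((s, j), false) = m ((s, k), false) ∨ m ((s, i), false) = m ((s, k), false) ∨
          m ((s, i), false) = m ((s, j), false) := by omega
      rcases h1 with h1 | h1 | h1
      · exact key i j k hij hik hjk hi (by omega) (by omega) h1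
      · refine key j i k hij.symm hjk hik ?_ (by omega) (by omega) h1
        rw [hi]; ext x; simp only [Finset.mem_insert, Finset.mem_singleton]; tauto
      · refine key k i j hik.symm hjk.symm hij ?_ (by omega) (by omega) h1
        rw [hi]; ext x; simp only [Finset.mem_insert, Finset.mem_singleton]; tauto
  · refine ⟨_, _, compat_full (!s), good_full hn hT (!s) hTf, ?_, fun m' _ _ hE => l_full hE⟩
    intro p hp
    simp [hal p hp]

end Pool.Agent.Q318.VN
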